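import Pool.Agent.Work.MP_ce2d68_du.Interface
import Pool.Agent.Work.MP_ce2d68_st_helper90.ETG
import Pool.Agent.Work.MP_ce2d68_st_helper79.ETR

set_option autoImplicit false

open Polynomial Filter Topology
open scoped ComplexConjugate

namespace Pool.Agent.Work.MP_ce2d68_du.h33.EX

open Pool.Agent.Work.MP_ce2d68_st Pool.Agent.Work.MP_ce2d68_st.helper90

lemma exists_large' (c : ℝ) (N₀ : ℕ) :
    ∃ N : ℕ, N₀ ≤ N ∧ 1 ≤ N ∧ N * (c * Real.exp (-(N : ℝ))) ≤ 1 / 4 := by
  obtain ⟨N, h1, h2, h3⟩ := exists_large c 1 0 0 N₀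
  refine ⟨N, h1, h2, le_trans (le_of_eq ?_) h3⟩
  ring

lemma ev_pow' (P : ℤ[X]) (k : ℕ) (z : ℂ) : ev (P ^ k) z = ev P z ^ k := by
  simp [ev, cp]

/-- the block induction -/
lemma blocks (K : Set ℂ) (Ls : List ℤ[X]) (D N : ℕ) (TP TO : ℂ → ℝ) (lam A om c C₀ : ℝ)
    (hTPpos : ∀ z, 0 < TP z) (hTOpos : ∀ z, 0 < TO z)
    (hTPs : Sym TP) (hTOs : Sym TO) (hlam : 0 ≤ lam) (hA : 0 ≤ A) (hc : 0 < c) (hC₀ : 0 < C₀)
    (hsd : Ls.prod.natDegree ≤ D)
    (hi : ∀ z ∈ K, ‖ev Ls.prod z‖ ≤ Real.exp lam * TP z) (hii : ∀ z ∈ K, Real.exp om ≤ TO z)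
    (hiv : max A lam + 1 ≤ om) (hC : ∀ z ∈ K, 1 ≤ C₀ * TP z)
    (hblk : ∀ (M : ℕ) (W : ℤ[X]) (T : ℂ → ℝ) (E : ℝ), 0 < E → Sym T →
      (∀ z ∈ K, 0 ≤ T z) → (∀ z ∈ K, ‖ev W z‖ * TP z ^ M ≤ E * T z) →
      ∀ f : ℝ[X], f.degree < (((M + 1) * D : ℕ) : WithBot ℕ) →
        ∃ (u : ℤ[X]) (h f₂ : ℝ[X]), u.degree < (((M + 1) * D : ℕ) : WithBot ℕ) ∧
          f₂.degree < ((M * D : ℕ) : WithBot ℕ) ∧
          f = 4 * u.map (Int.castRingHom ℝ) + h + Ls.prod.map (Int.castRingHom ℝ) * f₂ ∧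
          ∀ z ∈ K, ‖ev W z‖ * ‖rv h z‖ ≤ c * Real.exp (A * M) * E * T z)
    (f : ℝ[X]) (hf : f.degree < ((N * D : ℕ) : WithBot ℕ)) :
    ∀ s : ℕ, s ≤ N → ∃ (U : ℤ[X]) (H fs : ℝ[X]),
      U.degree < ((N * D : ℕ) : WithBot ℕ) ∧ fs.degree < (((N - s) * D : ℕ) : WithBot ℕ) ∧
      f = 4 * U.map (Int.castRingHom ℝ) + H + (Ls.prod ^ s).map (Int.castRingHom ℝ) * fs ∧
      ∀ z ∈ K, ‖rv H z‖ ≤ s * (c * C₀ * Real.exp (-(N : ℝ))) * (TP z * TO z) ^ N := by
  intro s
  induction s with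
  | zero =>
    intro _
    refine ⟨0, 0, f, ?_, by simpa using hf, by simp, ?_⟩
    · rw [degree_zero]; exact WithBot.bot_lt_coe _
    · intro z _
      simp [helper79.rv_zero]
  | succ s ih =>
    intro hs
    obtain ⟨U, H, fs, hU, hfs, hfe, hHb⟩ := ih (by omega)
    obtain ⟨M, hM⟩ : ∃ M, N = s + 1 + M := ⟨N - (s + 1), by omega⟩
    have hNs : N - s = M + 1 := by omega
    have hNs1 : N - (s + 1) = M := by omega
    rw [hNs] at hfs
    have hNr : (N : ℝ) = s + 1 + M := by rw [hM]; push_cast; ring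
    set E : ℝ := C₀ * Real.exp (lam * s - om * N) with hE
    have hE0 : 0 < E := by positivity
    have hWE : ∀ z ∈ K, ‖ev (Ls.prod ^ s) z‖ * TP z ^ M ≤ E * (TP z * TO z) ^ N := by
      intro z hz
      have hp := hTPpos z
      have ho := hTOpos z
      have e1 : ‖ev (Ls.prod ^ s) z‖ ≤ (Real.exp lam * TP z) ^ s := by
        rw [ev_pow', norm_pow]
        exact pow_le_pow_left₀ (norm_nonneg _) (hi z hz) s
      have e2 : Real.exp (om * N) ≤ TO z ^ N := by
        have : Real.exp (om * N) = Real.exp om ^ N := by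
          rw [← Real.exp_nat_mul]; congr 1; ring
        rw [this]
        exact pow_le_pow_left₀ (Real.exp_pos _).le (hii z hz) N
      have e3 : TP z ^ (s + M) ≤ C₀ * TP z ^ N := by
        have : TP z ^ N = TP z ^ (s + M) * TP z := by
          rw [← pow_succ]; congr 1; omega
        rw [this]
        have h0 : 0 < TP z ^ (s + M) := pow_pos hp _
        nlinarith [hC z hz]
      calc ‖ev (Ls.prod ^ s) z‖ * TP z ^ M ≤ (Real.exp lam * TP z) ^ s * TP z ^ M :=
            mul_le_mul_of_nonneg_right e1 (by positivity)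
        _ = Real.exp (lam * s) * TP z ^ (s + M) := by
            rw [mul_pow, ← Real.exp_nat_mul, pow_add]
            rw [mul_comm (s : ℝ) lam]
            ring
        _ ≤ Real.exp (lam * s) * (C₀ * TP z ^ N) :=
            mul_le_mul_of_nonneg_left e3 (Real.exp_pos _).le
        _ = Real.exp (lam * s - om * N) * Real.exp (om * N) * (C₀ * TP z ^ N) := by
            rw [← Real.exp_add]; congr 2; ring
        _ ≤ Real.exp (lam * s - om * N) * TO z ^ N * (C₀ * TP z ^ N) := by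
            apply mul_le_mul_of_nonneg_right _ (by positivity)
            exact mul_le_mul_of_nonneg_left e2 (Real.exp_pos _).le
        _ = E * (TP z * TO z) ^ N := by rw [hE, mul_pow]; ring
    obtain ⟨u, h, f₂, hu, hf₂, he, hb⟩ := hblk M (Ls.prod ^ s) (fun z => (TP z * TO z) ^ N) E hE0
      (by intro z; simp only; rw [hTPs z, hTOs z])
      (fun z _ => by
        have h1 := hTPpos z
        have h2 := hTOpos z
        positivity) hWE fs hfs
    refine ⟨U + Ls.prod ^ s * u, H + (Ls.prod ^ s).map (Int.castRingHom ℝ) * h, f₂, ?_, ?_, ?_, ?_⟩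
    · refine lt_of_le_of_lt (degree_add_le _ _) (max_lt hU ?_)
      by_cases h0 : Ls.prod ^ s * u = 0
      · rw [h0, degree_zero]; exact WithBot.bot_lt_coe _
      · have hu0 : u ≠ 0 := right_ne_zero_of_mul h0
        have h1 : u.natDegree < (M + 1) * D := (natDegree_lt_iff_degree_lt hu0).mpr hu
        have h2 : (Ls.prod ^ s * u).natDegree < N * D := by
          refine lt_of_le_of_lt natDegree_mul_le ?_
          have h3 : (Ls.prod ^ s).natDegree ≤ s * D :=
            natDegree_pow_le.trans (Nat.mul_le_mul_left s hsd)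
          have h4 : N * D = s * D + (M + 1) * D := by rw [hM]; ring
          omega
        exact (natDegree_lt_iff_degree_lt h0).mp h2
    · rw [hNs1]; exact hf₂
    · rw [hfe, he, pow_succ]
      simp only [Polynomial.map_add, Polynomial.map_mul]
      ring
    · intro z hz
      have hp := hTPpos z
      have ho := hTOpos z
      rw [helper79.rv_add, helper79.rv_map_mul]
      refine (norm_add_le _ _).trans ?_
      rw [norm_mul]
      have h1 := hHb z hz
      have h2 := hb z hz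
      have h3 : c * Real.exp (A * M) * E ≤ c * C₀ * Real.exp (-(N : ℝ)) := by
        have h4 : Real.exp (A * M) * Real.exp (lam * s - om * N) ≤ Real.exp (-(N : ℝ)) := by
          rw [← Real.exp_add]
          apply Real.exp_le_exp.mpr
          have e1 : lam * s ≤ max A lam * s :=
            mul_le_mul_of_nonneg_right (le_max_right _ _) (Nat.cast_nonneg _)
          have e2 : A * M ≤ max A lam * M :=
            mul_le_mul_of_nonneg_right (le_max_left _ _) (Nat.cast_nonneg _)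
          have e3 : 0 ≤ max A lam := hA.trans (le_max_left _ _)
          have e4 : (max A lam + 1) * N ≤ om * N :=
            mul_le_mul_of_nonneg_right hiv (Nat.cast_nonneg _)
          have e5 : max A lam * N = max A lam * s + max A lam + max A lam * M := by
            rw [hNr]; ring
          linarith
        calc c * Real.exp (A * M) * E = c * C₀ * (Real.exp (A * M) * Real.exp (lam * s - om * N)) := by
              rw [hE]; ring
          _ ≤ _ := mul_le_mul_of_nonneg_left h4 (by positivity)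
      have h5 : 0 ≤ (TP z * TO z) ^ N := by positivity
      calc ‖rv H z‖ + ‖ev (Ls.prod ^ s) z‖ * ‖rv h z‖
          ≤ s * (c * C₀ * Real.exp (-(N : ℝ))) * (TP z * TO z) ^ N
            + c * Real.exp (A * M) * E * (TP z * TO z) ^ N := add_le_add h1 h2
        _ ≤ s * (c * C₀ * Real.exp (-(N : ℝ))) * (TP z * TO z) ^ N
            + c * C₀ * Real.exp (-(N : ℝ)) * (TP z * TO z) ^ N := by
            have := mul_le_mul_of_nonneg_right h3 h5
            linarith
        _ = _ := by push_cast; ring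

theorem p_EXT (hBAS : Stmt_NBAS) (hK' : Stmt_NBLK) (hTOPP : Stmt_TOPP) (hMAXP : Stmt_MAXP)
    (hEIS : Stmt_EIS) : Stmt_EXT := by
  intro K Ls D m TP TO p₀ p lam A om hK hKc hLs hsd hD hTP hTPs hTO hTOpos
    hTOs hlam hA hi hii hiii hiv hp0 hp0r hp0d hp0K hp hpd hpr hpK hpoff hB N₀
  have hTPpos := hTP.2.1
  set T : ℂ → ℝ := fun z => TP z * TO z with hT
  have hTpos : ∀ z, 0 < T z := fun z => mul_pos (hTPpos z) (hTOpos z)
  have hTcont : Continuous T := hTP.1.mul hTO
  -- the constant C₀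
  obtain ⟨C₀, hC₀0, hC₀⟩ : ∃ C₀ : ℝ, 0 < C₀ ∧ ∀ z ∈ K, 1 ≤ C₀ * TP z := by
    have hcont : ContinuousOn (fun z : ℂ => 1 / TP z) K := by
      apply Continuous.continuousOn
      apply Continuous.div continuous_const hTP.1
      intro z; exact (hTPpos z).ne'
    obtain ⟨B, hB'⟩ := hK.bddAbove_image hcont
    refine ⟨max B 1, lt_of_lt_of_le one_pos (le_max_right _ _), ?_⟩
    intro z hz
    have h1 : 1 / TP z ≤ max B 1 := (hB' ⟨z, hz, rfl⟩).trans (le_max_left _ _)
    rwa [div_le_iff₀ (hTPpos z)] at h1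
  obtain ⟨c, hc0, hblk⟩ := hK' K Ls D TP p₀ A hK hKc hLs hsd hTP hTPs hp0 hp0r hp0d hp0K hA hiii
  obtain ⟨N, hN0, hN1, hNsmall⟩ := exists_large' (c * C₀) N₀
  refine ⟨N, hN0, ?_⟩
  -- degrees
  set n := N * (D + m) with hn
  set m' := N * m with hm'
  have hnm : n - m' = N * D := by
    rw [hn, hm', mul_add, Nat.add_sub_cancel]
  have hND : 1 ≤ N * D := Nat.mul_pos hN1 hD
  have hn' : n = N * D + m' := by rw [hn, hm', mul_add]
  have hmn : m' < n := by omega
  -- the polynomial H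
  have hHm : (X ^ (N * D) : ℤ[X]).Monic := monic_X_pow _
  have hHd : (X ^ (N * D) : ℤ[X]).natDegree = n - m' := by
    rw [hnm, natDegree_X_pow]
  -- real versions
  obtain ⟨pR, hpR, hpRd, hpRm⟩ := exists_real_of_RealP p hpr
  have hpRm' := hpRm hp
  have hBex : ∀ i ∈ Finset.Icc 1 m', ∃ B : ℝ[X], B.Monic ∧ B.natDegree = n - i ∧
      ∀ z ∈ K, ‖rv B z‖ ≤ (1 / 10 : ℝ) ^ i * T z ^ N := by
    intro i hi'
    obtain ⟨B, hB1, hB2, hB3, hB4⟩ := hB N hN1 i hi'
    obtain ⟨BR, hBR, hBRd, hBRm⟩ := exists_real_of_RealP B hB2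
    refine ⟨BR, hBRm hB1, by rw [hBRd, hB3], ?_⟩
    intro z hz
    rw [rv, hBR]
    exact hB4 z hz
  choose! B hBm hBd hBb using hBex
  obtain ⟨t, v, ht, hvd, hdeg⟩ := hTOPP n m' (X ^ (N * D)) (pR ^ N) B hmn hHm hHd (hpRm'.pow N)
    (by rw [hpRm'.natDegree_pow, hpRd, hpd]) (fun i hi' => ⟨hBm i hi', hBd i hi'⟩)
  rw [hnm] at hdeg
  set H : ℤ[X] := X ^ (N * D) with hH
  set f : ℝ[X] := pR ^ N + ∑ i ∈ Finset.Icc 1 m', C (t i) * B i - X ^ n - 2
        - 4 * (H * v).map (Int.castRingHom ℝ) with hf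
  -- degree of the base
  have hLsd : Ls.prod.natDegree ≤ D := by
    refine le_trans ?_ hsd
    unfold sd
    exact Polynomial.natDegree_list_prod_le Ls
  obtain ⟨U, h, fs, hUd, hfs, hfe, hhb⟩ := blocks K Ls D N TP TO lam A om c C₀ hTPpos hTOpos hTPs
    hTOs hlam hA hc0 hC₀0 hLsd hi hii hiv hC₀ hblk f hdeg N le_rfl
  have hfs0 : fs = 0 := by
    rw [Nat.sub_self, zero_mul] at hfs
    by_contra hne
    rw [degree_eq_natDegree hne] at hfs
    have : fs.natDegree < 0 := by exact_mod_cast hfs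
    omega
  rw [hfs0, mul_zero, add_zero] at hfe
  -- the error term
  have hhb' : ∀ z ∈ K, ‖rv h z‖ ≤ 1 / 4 * T z ^ N := by
    intro z hz
    exact (hhb z hz).trans (mul_le_mul_of_nonneg_right hNsmall (pow_pos (hTpos z) N).le)
  -- the polynomial F
  have hHvU : (H * v + U).degree < (n : WithBot ℕ) := by
    refine lt_of_le_of_lt (degree_add_le _ _) (max_lt ?_ ?_)
    · by_cases hv0 : v = 0
      · rw [hv0, mul_zero, degree_zero]; exact WithBot.bot_lt_coe _
      · have h1 : v.natDegree < m' := (Polynomial.natDegree_lt_iff_degree_lt hv0).mpr hvd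
        have h2 : (H * v).natDegree < n := by
          refine lt_of_le_of_lt Polynomial.natDegree_mul_le ?_
          rw [hHd]
          omega
        exact (Polynomial.natDegree_lt_iff_degree_lt (mul_ne_zero hHm.ne_zero hv0)).mp h2
    · refine hUd.trans_le ?_
      have : N * D ≤ n := by omega
      exact_mod_cast this
  obtain ⟨hFm, hFd, hFi, hF0⟩ := hEIS n (H * v + U) (by omega) hHvU
  set F : ℤ[X] := X ^ n + 2 + 4 * (H * v + U) with hF
  have hFR : F.map (Int.castRingHom ℝ)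
      = pR ^ N + ∑ i ∈ Finset.Icc 1 m', C (t i) * B i - h := by
    have h1 : F.map (Int.castRingHom ℝ) = X ^ n + 2 + 4 * (H * v).map (Int.castRingHom ℝ)
        + 4 * U.map (Int.castRingHom ℝ) := by
      rw [hF]
      simp only [Polynomial.map_add, Polynomial.map_mul, Polynomial.map_pow, Polynomial.map_X,
        Polynomial.map_ofNat]
      ring
    have h2 : f - 4 * U.map (Int.castRingHom ℝ) = h := by rw [hfe]; ring
    rw [h1, ← h2, hf]
    ring
  have hFev : ∀ z : ℂ, ev F z = (p.eval z) ^ N + ∑ i ∈ Finset.Icc 1 m', (t i : ℂ) * rv (B i) z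
      - rv h z := by
    intro z
    have h1 : ev F z = ((F.map (Int.castRingHom ℝ)).map (algebraMap ℝ ℂ)).eval z := by
      rw [ev, cp, Polynomial.map_map]
      congr 2
    rw [h1, hFR]
    simp only [Polynomial.map_sub, Polynomial.map_add, Polynomial.map_pow, hpR,
      Polynomial.map_sum, Polynomial.map_mul, Polynomial.map_C, eval_sub, eval_add, eval_pow,
      Polynomial.eval_finsetSum, eval_mul, eval_C, rv]
    rfl
  have hFK : ∀ z ∈ K, ‖ev F z - (p.eval z) ^ N‖ ≤ 1 / 2 * T z ^ N := by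
    intro z hz
    have hTN := pow_pos (hTpos z) N
    have h1 : ev F z - (p.eval z) ^ N = ∑ i ∈ Finset.Icc 1 m', (t i : ℂ) * rv (B i) z - rv h z := by
      rw [hFev]; ring
    rw [h1]
    have h2 : ‖∑ i ∈ Finset.Icc 1 m', (t i : ℂ) * rv (B i) z‖ ≤ 2 / 9 * T z ^ N := by
      calc ‖∑ i ∈ Finset.Icc 1 m', (t i : ℂ) * rv (B i) z‖
          ≤ ∑ i ∈ Finset.Icc 1 m', ‖(t i : ℂ) * rv (B i) z‖ := norm_sum_le _ _
        _ ≤ ∑ i ∈ Finset.Icc 1 m', (1 / 10 : ℝ) ^ i * (2 * T z ^ N) := by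
            apply Finset.sum_le_sum
            intro i hi'
            rw [norm_mul, Complex.norm_real, Real.norm_eq_abs]
            have h3 := hBb i hi' z hz
            calc |t i| * ‖rv (B i) z‖ ≤ 2 * ((1 / 10 : ℝ) ^ i * T z ^ N) :=
                  mul_le_mul (ht i) h3 (norm_nonneg _) (by norm_num)
              _ = _ := by ring
        _ = (∑ i ∈ Finset.Icc 1 m', (1 / 10 : ℝ) ^ i) * (2 * T z ^ N) := by
            rw [Finset.sum_mul]
        _ ≤ 1 / 9 * (2 * T z ^ N) := mul_le_mul_of_nonneg_right (geo_bound m') (by positivity)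
        _ = _ := by ring
    calc ‖∑ i ∈ Finset.Icc 1 m', (t i : ℂ) * rv (B i) z - rv h z‖
        ≤ ‖∑ i ∈ Finset.Icc 1 m', (t i : ℂ) * rv (B i) z‖ + ‖rv h z‖ := norm_sub_le _ _
      _ ≤ 2 / 9 * T z ^ N + 1 / 4 * T z ^ N := add_le_add h2 (hhb' z hz)
      _ ≤ 1 / 2 * T z ^ N := by nlinarith
  have hFoff : ∀ z, z ∉ K → ‖ev F z - (p.eval z) ^ N‖ ≤ 1 / 2 * ‖(p.eval z) ^ N‖ := by
    have hpN : (p ^ N).natDegree = n := by rw [hp.natDegree_pow, hpd]
    have hcF : (cp F).Monic := hFm.map _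
    have hcFd : (cp F).natDegree = n := by
      rw [cp, hFm.natDegree_map, hFd]
    have hdeg' : (cp F - p ^ N).degree < (p ^ N).degree := by
      have h1 : (cp F).degree = (p ^ N).degree := by
        rw [degree_eq_natDegree hcF.ne_zero, degree_eq_natDegree (hp.pow N).ne_zero, hcFd, hpN]
      have h2 : (cp F - p ^ N).degree < (cp F).degree := by
        apply degree_sub_lt_left h1 hcF.ne_zero
        rw [hcF.leadingCoeff, (hp.pow N).leadingCoeff]
      rwa [h1] at h2
    have h3 := hMAXP K (fun z => T z ^ N) (cp F - p ^ N) (p ^ N) hK (hTcont.pow N) hdeg'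
      (fun z => pow_pos (hTpos z) N)
      (fun z hz => by rw [eval_pow, norm_pow, hpoff z hz])
      (fun z hz => by
        have := hFK z hz
        rw [eval_sub, eval_pow]
        exact this)
    intro z hz
    have := h3 z hz
    rw [eval_sub, eval_pow] at this
    exact this
  refine ⟨F, hFm, hFd, hFi, hF0, ?_, ?_⟩
  · intro z hz0
    by_contra hzK
    have h1 := hFoff z hzK
    rw [hz0, zero_sub, norm_neg] at h1
    have h2 : 0 < ‖(p.eval z) ^ N‖ := by
      rw [norm_pow, hpoff z hzK]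
      exact pow_pos (hTpos z) N
    linarith
  · intro z
    by_cases hzK : z ∈ K
    · have h1 := hFK z hzK
      have h2 : ‖(p.eval z) ^ N‖ ≤ T z ^ N := by
        rw [norm_pow]
        exact pow_le_pow_left₀ (norm_nonneg _) (hpK z hzK) N
      calc ‖ev F z‖ = ‖(ev F z - (p.eval z) ^ N) + (p.eval z) ^ N‖ := by rw [sub_add_cancel]
        _ ≤ ‖ev F z - (p.eval z) ^ N‖ + ‖(p.eval z) ^ N‖ := norm_add_le _ _
        _ ≤ 1 / 2 * T z ^ N + T z ^ N := add_le_add h1 h2
        _ = 3 / 2 * T z ^ N := by ring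
    · have h1 := hFoff z hzK
      have h2 : ‖(p.eval z) ^ N‖ = T z ^ N := by
        rw [norm_pow, hpoff z hzK]
      rw [h2] at h1
      calc ‖ev F z‖ = ‖(ev F z - (p.eval z) ^ N) + (p.eval z) ^ N‖ := by rw [sub_add_cancel]
        _ ≤ ‖ev F z - (p.eval z) ^ N‖ + ‖(p.eval z) ^ N‖ := norm_add_le _ _
        _ ≤ 1 / 2 * T z ^ N + T z ^ N := add_le_add h1 h2.le
        _ = 3 / 2 * T z ^ N := by ring

end Pool.Agent.Work.MP_ce2d68_du.h33.EX
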