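import Pool.Agent.Work.MP_ce2d68_du_h33.B_ALT

set_option autoImplicit false

open Polynomial Filter Topology
open scoped ComplexConjugate

namespace Pool.Agent.Work.MP_ce2d68_du.h33

open Pool.Agent.Work.MP_ce2d68_st

theorem p_DUAL (hALT : Stmt_ALT) (hLEP : Stmt_LEP) : Stmt_DUAL := by
  intro θ m h0 hπ hm
  by_cases hm0 : m < 0
  · exact cert_one (Real.exp_le_one_iff.mpr hm0.le)
  push Not at hm0
  obtain ⟨h1, hcont, -, -, -⟩ := hLEP
  set ε : ℝ := (lec θ - m) / 4 with hε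
  have hε0 : 0 < ε := by rw [hε]; linarith
  -- choose `θ'` by continuity
  have hθ : θ ∈ Set.Ioo 0 Real.pi := ⟨h0, hπ⟩
  have hca : ContinuousAt lec θ := hcont.continuousAt (Ioo_mem_nhds h0 hπ)
  have hev : ∀ᶠ x in 𝓝 θ, m + 2 * ε < lec x :=
    hca.eventually (lt_mem_nhds (show m + 2 * ε < lec θ by rw [hε]; linarith))
  have hev2 : ∀ᶠ x in 𝓝 θ, x < Real.pi := Iio_mem_nhds hπ
  obtain ⟨δ, hδ, hball⟩ := Metric.eventually_nhds_iff.mp (hev.and hev2)
  have hx : dist (θ + δ / 2) θ < δ := by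
    rw [Real.dist_eq, add_sub_cancel_left, abs_of_pos (by linarith)]
    linarith
  obtain ⟨h2, h3⟩ := hball hx
  rcases hALT θ (θ + δ / 2) (m + ε) ε h0 (by linarith) h3 (by linarith) hε0 with h | h
  · exfalso
    have h4 := (h1 (θ + δ / 2) (by linarith) h3).2.2 _ h
    linarith
  · rwa [add_sub_cancel_right] at h

end Pool.Agent.Work.MP_ce2d68_du.h33
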