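import Mathlib
import Pool.Agent.Work.MP_ce2d68_st_helper90.All
import Pool.Agent.Work.MP_ce2d68_st_helper90.ESS
import Pool.Agent.Work.MP_ce2d68_du_h33.B_DUAL

set_option autoImplicit false

open Polynomial Filter Topology
open scoped ComplexConjugate

namespace Pool.Agent.Work.MP_ce2d68_du.h33

open Pool.Agent.Work.MP_ce2d68_st

/-- the theorem, from strong duality (`DUAL`) and weak duality (`WEAK`) -/
theorem p_FIN (hDUAL : Stmt_DUAL) (hWEAK : Stmt_WEAK) :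
    (∀ θ ∈ Set.Ioo 0 Real.pi,
      (∀ v : ℝ, v < helper90.ess θ → Cert θ v) ∧ (∀ v : ℝ, Cert θ v → v ≤ helper90.ess θ) ∧
      ((∃ ε : ℝ, 0 < ε ∧ ∀ θ' ∈ Set.Ico θ (θ + ε), cth θ' = cth θ) ↔
        ∃ v : ℝ, cth θ < v ∧ Cert θ v)) ∧
    (Stair cth 0 Real.pi ↔ ∀ θ ∈ Set.Ioo 0 Real.pi, ∃ v : ℝ, cth θ < v ∧ Cert θ v) := by
  obtain ⟨C, -, -, hmain, -, -, -, hst0⟩ := helper90.p_FIN
  have hE : ∀ θ ∈ Set.Ioo 0 Real.pi, helper90.ess θ = C θ := fun θ hθ =>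
    helper90.ess_of C θ (hmain θ hθ).2.2.1 (hmain θ hθ).2.2.2.1
  have hL : ∀ θ ∈ Set.Ioo 0 Real.pi, helper90.ess θ = Real.exp (lec θ) := fun θ hθ =>
    helper90.ess_of (fun x => Real.exp (lec x)) θ
      (fun v hv => helper90.exp_lec_finite helper90.p_LEP helper90.p_TRL θ hθ.1 hθ.2 v hv)
      (fun v hv => helper90.exp_lec_infinite helper90.p_LEP helper90.p_TRL θ hθ.1 hθ.2 v hv)
  have h1 : ∀ θ ∈ Set.Ioo 0 Real.pi, ∀ v : ℝ, v < helper90.ess θ → Cert θ v := by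
    intro θ hθ v hv
    rw [hL θ hθ] at hv
    by_cases hv0 : v ≤ 0
    · exact cert_one (by linarith)
    push Not at hv0
    have h2 := hDUAL θ (Real.log v) hθ.1 hθ.2 ((Real.log_lt_iff_lt_exp hv0).mpr hv)
    rwa [Real.exp_log hv0] at h2
  have h2 : ∀ θ ∈ Set.Ioo 0 Real.pi, ∀ v : ℝ, Cert θ v → v ≤ helper90.ess θ := by
    intro θ hθ v hv
    rw [hL θ hθ]
    by_cases hv0 : v ≤ 0
    · exact hv0.trans (Real.exp_pos _).le
    push Not at hv0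
    have h3 := hWEAK θ v (lec θ) hv0 hv (helper90.p_LEP.1 θ hθ.1 hθ.2).2.1
    exact (Real.log_le_iff_le_exp hv0).mp h3
  have h3 : ∀ θ ∈ Set.Ioo 0 Real.pi, (cth θ < C θ ↔ ∃ v : ℝ, cth θ < v ∧ Cert θ v) := by
    intro θ hθ
    rw [← hE θ hθ]
    constructor
    · intro h
      exact ⟨(cth θ + helper90.ess θ) / 2, by linarith, h1 θ hθ _ (by linarith)⟩
    · rintro ⟨v, hv, hc⟩
      exact lt_of_lt_of_le hv (h2 θ hθ v hc)
  refine ⟨fun θ hθ => ⟨h1 θ hθ, h2 θ hθ, ?_⟩, ?_⟩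
  · rw [← h3 θ hθ]
    exact (hmain θ hθ).2.2.2.2
  · rw [hst0]
    exact ⟨fun h θ hθ => (h3 θ hθ).mp (h θ hθ), fun h θ hθ => (h3 θ hθ).mpr (h θ hθ)⟩

end Pool.Agent.Work.MP_ce2d68_du.h33
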