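import Pool.Agent.Work.MP_ce2d68_du_h20.B_NBAS
import Pool.Agent.Work.MP_ce2d68_du_h29.B_ROT
import Pool.Agent.Work.MP_ce2d68_du_h29.B_SYMC
import Pool.Agent.Work.MP_ce2d68_du_h32.B_HB
import Pool.Agent.Work.MP_ce2d68_du_h32.B_RND
import Pool.Agent.Work.MP_ce2d68_du_h33.Fin
import Pool.Agent.Work.MP_ce2d68_du_h35.B_NBLK
import Pool.Agent.Work.MP_ce2d68_du_h36.B_NODES
import Pool.Agent.Work.MP_ce2d68_du_h40.B_NCOV
import Pool.Agent.Work.MP_ce2d68_du_h42.B_BW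
import Pool.Agent.Work.MP_ce2d68_du_h42.B_FARD
import Pool.Agent.Work.MP_ce2d68_du_h42.B_GRID
import Pool.Agent.Work.MP_ce2d68_du_h42.B_JENL
import Pool.Agent.Work.MP_ce2d68_du_h46.B_EXP
import Pool.Agent.Work.MP_ce2d68_du_h51.B_WEAK
import Pool.Agent.Work.MP_ce2d68_du_h33.B_EXT
import Pool.Agent.Work.MP_ce2d68_du_h63.B_NMINK
import Pool.Agent.Work.MP_ce2d68_du_h70.B_GMINK
import Pool.Agent.Work.MP_ce2d68_du_h77.B_MPOLY
import Pool.Agent.Work.MP_ce2d68_du_h79.B_POLY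
import Pool.Agent.Work.MP_ce2d68_du_h33.B_NDIG
import Pool.Agent.Work.MP_ce2d68_du_h89.B_CERT
import Pool.Agent.Work.MP_ce2d68_du_h90.B_BASEQ

set_option autoImplicit false

namespace Pool.Agent.Work.MP_ce2d68_du.h33

open Pool.Agent.Work.MP_ce2d68_st

theorem q_NMINK : Stmt_NMINK := h63.p_NMINK h20.p_NBAS
theorem q_NCOV : Stmt_NCOV := h40.p_NCOV h20.p_NBAS q_NMINK
theorem q_NDIG : Stmt_NDIG := ND.p_NDIG h20.p_NBAS q_NCOV
theorem q_NBLK : Stmt_NBLK := h35.p_NBLK h20.p_NBAS q_NDIG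
theorem q_EXT : Stmt_EXT := EX.p_EXT h20.p_NBAS q_NBLK helper54.stmt_TOPP helper6.stmt_MAXP
  helper30.stmt_EIS
theorem q_EXP : Stmt_EXP := h46.p_EXP h20.p_NBAS q_EXT helper90.p_ACHV
theorem q_NODES : Stmt_NODES := h36.p_NODES p_ROT h79.p_POLY p_SYMC
theorem q_MPOLY : Stmt_MPOLY := h77.p_MPOLY h70.p_GMINK q_NODES
theorem q_JENL : Stmt_JENL := h42.p_JENL h20.p_NBAS
theorem q_BASEQ : Stmt_BASEQ := Pool.Agent.Work.MP_ce2d68_du_h90.p_BASEQ q_MPOLY q_JENL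
theorem q_CERT : Stmt_CERT := h89.p_CERT h20.p_NBAS h42.p_BW
theorem q_ALT : Stmt_ALT := p_ALT h20.p_NBAS q_CERT h32.p_HB q_BASEQ q_EXP
  (h32.p_RND h20.p_NBAS) h42.p_GRID h42.p_FARD helper63.stmt_COST helper36.stmt_GEO2
theorem q_DUAL : Stmt_DUAL := p_DUAL q_ALT helper90.p_LEP
theorem q_WEAK : Stmt_WEAK := h51.p_WEAK helper90.p_BAS helper90.p_RES

end Pool.Agent.Work.MP_ce2d68_du.h33
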