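import Pool.Agent.Work.MP_ce2d68_du.Interface

set_option autoImplicit false

open Polynomial Filter Topology
open scoped ComplexConjugate

namespace Pool.Agent.Work.MP_ce2d68_du.h33

open Pool.Agent.Work.MP_ce2d68_st

lemma cert_mono {θ v v' : ℝ} (h : Cert θ v) (h0 : 0 ≤ v') (hv : v' ≤ v) : Cert θ v' := by
  obtain ⟨n, Q, hn, hQ, H⟩ := h
  refine ⟨n, Q, hn, hQ, fun z hz => le_trans ?_ (H z hz)⟩
  exact mul_le_mul_of_nonneg_right (pow_le_pow_left₀ h0 hv n) (norm_nonneg _)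

lemma cert_one {θ v : ℝ} (hv : v ≤ 1) : Cert θ v := by
  refine ⟨1, 1, le_rfl, one_ne_zero, fun z _ => ?_⟩
  have h1 : ev (1 : ℤ[X]) z = 1 := by simp [ev, cp]
  rw [h1, norm_one, mul_one, pow_one, pow_one]
  exact hv.trans (le_max_left _ _)

lemma ach_mono {θ x y : ℝ} (h : Ach θ x) (hxy : x ≤ y) : Ach θ y := by
  intro ε hε D
  obtain ⟨F, h1, h2, h3⟩ := h ε hε D
  exact ⟨F, h1, h2, by linarith⟩

lemma Tn_two (G : Finset ℂ) (t : ℝ) (n : ℂ → ℕ) (z : ℂ) :
    Tn G t (fun a => 2 * n a) z = Tn G t n z ^ 2 := by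
  unfold Tn
  rw [← Finset.prod_pow]
  apply Finset.prod_congr rfl
  intro a _
  rw [← pow_mul]
  congr 1
  ring

/-- the second case: the existence theorem applied -/
lemma case2 (hEXP : Stmt_EXP) (hCOST : Stmt_COST) (θ' : ℝ) (h0 : 0 < θ') (h1 : θ' < Real.pi)
    (G : Finset ℂ) (t r₁ R₁ s b R δ κ : ℝ) (ν : ℕ) (n : ℂ → ℕ) (Ls : List ℤ[X])
    (hs0 : 0 < s) (hs1 : s ≤ 1 / 16) (hr0 : 0 < r₁) (hr1 : r₁ < 1) (hR1 : 1 < R₁)
    (ht : t = s * r₁) (hG : ∀ a ∈ G, r₁ ≤ ‖a‖ ∧ ‖a‖ ≤ R₁) (hconj : ∀ a ∈ G, conj a ∈ G)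
    (hdisc : ∀ a ∈ G, ∀ z : ℂ, ‖z - a‖ ≤ t → |z.arg| ≤ θ')
    (hR : 10 ≤ R) (hb : ∀ z : ℂ, ‖z - (b : ℂ)‖ ≤ R → |z.arg| ≤ θ' ∧ ‖z‖ ≤ 2 * b)
    (hcost : ca (fun z => Real.log (max ‖z - (b : ℂ)‖ R)) ≤ (1 + δ) * Real.log R)
    (hδ : 0 < δ) (hκ : 0 ≤ κ) (hν : 1 ≤ ν) (hn : ∀ a ∈ G, n (conj a) = n a)
    (hnν : ∑ a ∈ G, n a = ν) (hLs : ∀ P ∈ Ls, IP P) (hsd : sd Ls ≤ 2 * ν)
    (hbd : ∀ z : ℂ, ‖ev Ls.prod z‖ ≤ Real.exp (2 * ν * (κ + δ)) * Tn G t n z ^ 2)
    (hLt : ∀ P ∈ Ls, -(κ * ν * P.natDegree) ≤ ∑ a ∈ G, n a * Lt t P a) :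
    Ach θ' ((∑ a ∈ G, n a * Real.posLog ‖a‖) / ν + 2 * s + (1 + δ) * (κ + δ)
      + (1 + δ) * (1 + Real.log R) / (2 * ν)) := by
  have ht0 : 0 < t := by rw [ht]; positivity
  have hlR : 0 < Real.log R := Real.log_pos (by linarith)
  have hν' : (1 : ℝ) ≤ ν := by exact_mod_cast hν
  have hν0 : (0 : ℝ) < ν := by linarith
  set lam : ℝ := 2 * ν * (κ + δ) with hlam
  set A : ℝ := 2 * κ * ν with hA
  have hlam0 : 0 ≤ lam := by positivity
  have hA0 : 0 ≤ A := by positivity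
  set om : ℝ := lam + 1 with hom
  set m : ℕ := ⌈om / Real.log R⌉₊ with hm
  have hmom : om ≤ m * Real.log R := by
    have := Nat.le_ceil (om / Real.log R)
    rw [← hm, div_le_iff₀ hlR] at this
    exact this
  have hmlt : (m : ℝ) ≤ om / Real.log R + 1 := by
    have := Nat.ceil_lt_add_one (a := om / Real.log R) (by positivity)
    rw [← hm] at this
    exact this.le
  have hAch := hEXP θ' G (fun a => 2 * n a) t b R (max (2 * b) (R₁ + 1)) (2 * ν) m Ls lam A om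
    h0 h1 ht0 (fun a ha => ⟨hconj a ha, by rw [hn a ha]⟩)
    (by rw [← Finset.mul_sum, hnν]) (by omega)
    (by
      intro a ha z hz
      refine ⟨hdisc a ha z hz, ?_⟩
      have h2 : ‖z‖ ≤ ‖z - a‖ + ‖a‖ := by
        calc ‖z‖ = ‖(z - a) + a‖ := by rw [sub_add_cancel]
          _ ≤ _ := norm_add_le _ _
      have h3 : t ≤ 1 := by rw [ht]; nlinarith
      have h4 := (hG a ha).2
      exact le_trans (by linarith) (le_max_right _ _))
    hR (fun z hz => ⟨(hb z hz).1, (hb z hz).2.trans (le_max_left _ _)⟩)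
    hLs hsd hlam0 hA0
    (fun z _ => by rw [Tn_two]; exact hbd z)
    (by
      intro z _
      have h2 : Real.exp om ≤ R ^ m := by
        rw [← Real.exp_log (show (0 : ℝ) < R by linarith), ← Real.exp_nat_mul]
        exact Real.exp_le_exp.mpr hmom
      exact h2.trans (pow_le_pow_left₀ (by linarith) (le_max_right _ _) m))
    (by
      intro P hP
      have h2 := hLt P hP
      have h3 : ∑ a ∈ G, ((2 * n a : ℕ) : ℝ) * Lt t P a = 2 * ∑ a ∈ G, n a * Lt t P a := by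
        rw [Finset.mul_sum]
        apply Finset.sum_congr rfl
        intro a _
        push_cast
        ring
      rw [h3, hA]
      linarith)
    (by
      have : A ≤ lam := by
        rw [hA, hlam]; nlinarith
      rw [hom, max_eq_right this])
  refine ach_mono hAch ?_
  have hX : (∑ a ∈ G, ((2 * n a : ℕ) : ℝ) * ca (fun z => Real.log (max ‖z - a‖ t))
      + m * ca (fun z => Real.log (max ‖z - (b : ℂ)‖ R)))
      ≤ 2 * ∑ a ∈ G, n a * Real.posLog ‖a‖ + 4 * s * ν + (1 + δ) * (om + Real.log R) := by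
    have h2 : ∑ a ∈ G, ((2 * n a : ℕ) : ℝ) * ca (fun z => Real.log (max ‖z - a‖ t))
        ≤ 2 * ∑ a ∈ G, n a * Real.posLog ‖a‖ + 4 * s * ν := by
      have h3 : ∀ a ∈ G, ((2 * n a : ℕ) : ℝ) * ca (fun z => Real.log (max ‖z - a‖ t))
          ≤ 2 * (n a * Real.posLog ‖a‖) + 4 * s * n a := by
        intro a ha
        have h4 : t ≤ ‖a‖ / 4 := by
          have := (hG a ha).1
          rw [ht]; nlinarith
        have h5 := hCOST a t ht0 h4
        have h6 : 2 * t / ‖a‖ ≤ 2 * s := by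
          have := (hG a ha).1
          rw [div_le_iff₀ (by linarith), ht]
          nlinarith
        have h7 : (0 : ℝ) ≤ n a := Nat.cast_nonneg _
        push_cast
        nlinarith
      refine (Finset.sum_le_sum h3).trans (le_of_eq ?_)
      rw [Finset.sum_add_distrib, ← Finset.mul_sum, ← Finset.mul_sum]
      congr 2
      rw [← hnν]
      push_cast
      rfl
    have h3 : m * ca (fun z => Real.log (max ‖z - (b : ℂ)‖ R)) ≤ (1 + δ) * (om + Real.log R) := by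
      have hm0 : (0 : ℝ) ≤ m := Nat.cast_nonneg _
      calc m * ca (fun z => Real.log (max ‖z - (b : ℂ)‖ R))
          ≤ m * ((1 + δ) * Real.log R) := mul_le_mul_of_nonneg_left hcost hm0
        _ ≤ (om / Real.log R + 1) * ((1 + δ) * Real.log R) :=
            mul_le_mul_of_nonneg_right hmlt (by positivity)
        _ = _ := by field_simp
    linarith
  have hsum0 : 0 ≤ ∑ a ∈ G, (n a : ℝ) * Real.posLog ‖a‖ :=
    Finset.sum_nonneg fun a _ => mul_nonneg (Nat.cast_nonneg _) Real.posLog_nonneg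
  have hY0 : 0 ≤ 2 * ∑ a ∈ G, n a * Real.posLog ‖a‖ + 4 * s * ν + (1 + δ) * (om + Real.log R) := by
    positivity
  have hDm : (2 * ν : ℝ) ≤ ((2 * ν + m : ℕ) : ℝ) := by
    push_cast
    have hm0 : (0 : ℝ) ≤ m := Nat.cast_nonneg _
    linarith
  have hD0 : (0 : ℝ) < 2 * ν := by linarith
  calc _ ≤ (2 * ∑ a ∈ G, n a * Real.posLog ‖a‖ + 4 * s * ν + (1 + δ) * (om + Real.log R))
          / ((2 * ν + m : ℕ) : ℝ) := by
        apply div_le_div_of_nonneg_right hX
        positivity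
    _ ≤ (2 * ∑ a ∈ G, n a * Real.posLog ‖a‖ + 4 * s * ν + (1 + δ) * (om + Real.log R))
          / (2 * ν) := div_le_div_of_nonneg_left hY0 hD0 hDm
    _ = _ := by
        rw [hom, hlam]
        field_simp
        ring

lemma Lt_conj (hB : Stmt_NBAS) (t : ℝ) (P : ℤ[X]) (hP : IP P) (a : ℂ) :
    Lt t P (conj a) = Lt t P a := by
  obtain ⟨-, -, hc, -, -, -⟩ := hB P hP
  unfold Lt
  congr 1
  refine Finset.sum_nbij' (fun x => conj x) (fun x => conj x) (fun x hx => hc x hx)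
    (fun x hx => hc x hx) (fun x _ => Complex.conj_conj x) (fun x _ => Complex.conj_conj x) ?_
  intro x _
  congr 2
  rw [← RCLike.norm_conj (x - conj a)]
  simp

lemma sum_conj (G : Finset ℂ) (hG : ∀ a ∈ G, conj a ∈ G) (f : ℂ → ℝ) :
    ∑ a ∈ G, f (conj a) = ∑ a ∈ G, f a := by
  refine Finset.sum_nbij' (fun x => conj x) (fun x => conj x) (fun x hx => hG x hx)
    (fun x hx => hG x hx) (fun x _ => Complex.conj_conj x) (fun x _ => Complex.conj_conj x) ?_
  intro x _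
  rfl

theorem p_ALT (hB : Stmt_NBAS) (hCERT : Stmt_CERT) (hHB : Stmt_HB) (hBASEQ : Stmt_BASEQ)
    (hEXP : Stmt_EXP) (hRND : Stmt_RND) (hGRID : Stmt_GRID) (hFARD : Stmt_FARD)
    (hCOST : Stmt_COST) (hGEO2 : Stmt_GEO2) : Stmt_ALT := by
  intro θ θ' m ε₀ h0 hθ h1 hm hε
  by_cases hm0 : m - ε₀ ≤ 0
  · exact Or.inr (cert_one (Real.exp_le_one_iff.mpr hm0))
  push Not at hm0
  have hθπ : θ < Real.pi := hθ.trans h1
  -- parameters
  set u : ℝ := min ε₀ 1 / (64 * (m + 2)) with hu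
  have hm2 : 0 < 64 * (m + 2) := by linarith
  have hmin : 0 < min ε₀ 1 := lt_min hε one_pos
  have hu0 : 0 < u := by positivity
  have huε : u * (64 * (m + 2)) ≤ ε₀ := by
    rw [hu, div_mul_cancel₀ _ hm2.ne']; exact min_le_left _ _
  have hu1 : u * (64 * (m + 2)) ≤ 1 := by
    rw [hu, div_mul_cancel₀ _ hm2.ne']; exact min_le_right _ _
  have hum : 0 ≤ u * m := by positivity
  have hu128 : u ≤ 1 / 128 := by nlinarith
  obtain ⟨r₁, R₁, hr0, hr1, hR1, hC⟩ := hCERT θ u h0 hθπ hu0 (by linarith)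
  obtain ⟨s₁, hs10, hs16, hgeo⟩ := hGEO2 θ θ' h0 hθ h1
  set s : ℝ := min s₁ u with hs
  have hs0 : 0 < s := lt_min hs10 hu0
  have hss : s ≤ s₁ := min_le_left _ _
  have hsu : s ≤ u := min_le_right _ _
  set t : ℝ := s * r₁ with ht
  have ht0 : 0 < t := by positivity
  set τ : ℝ := min t 1 * (ε₀ / 8) with hτ
  have hmt : 0 < min t 1 := lt_min ht0 one_pos
  have hτ0 : 0 < τ := by positivity
  have hτ1 : τ ≤ ε₀ / 8 := by
    rw [hτ]
    have := min_le_right t 1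
    nlinarith
  have hτ2 : τ / t ≤ ε₀ / 8 := by
    rw [div_le_iff₀ ht0, hτ]
    have := min_le_left t 1
    nlinarith
  obtain ⟨G, hG1, hGc, hGb, hGn⟩ := hGRID θ r₁ R₁ τ h0 hθπ hr0 hr1 hR1 hτ0
  obtain ⟨b, R, hR10, hbR, hcost⟩ := hFARD θ' u (h0.trans hθ) h1 hu0
  obtain ⟨ν₀, hbase⟩ := hBASEQ G t ht0 hGc u hu0
  obtain ⟨C₁, hC₁, hrnd⟩ := hRND G t ht0 hG1 hGc
  -- choice of ν
  set E : ℝ := G.card * (G.card * Real.log R₁) + (1 + u) * (1 + Real.log R) / 2 with hE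
  have hlR1 : 0 < Real.log R₁ := Real.log_pos hR1
  have hlR : 0 < Real.log R := Real.log_pos (by linarith)
  have hE0 : 0 ≤ E := by positivity
  obtain ⟨ν, hν⟩ : ∃ ν : ℕ, ν₀ ≤ ν ∧ 1 ≤ ν ∧ C₁ ≤ u * ν ∧ E ≤ ε₀ / 2 * ν := by
    obtain ⟨k1, hk1⟩ := exists_nat_ge (C₁ / u)
    obtain ⟨k2, hk2⟩ := exists_nat_ge (E / (ε₀ / 2))
    refine ⟨ν₀ + 1 + k1 + k2, by omega, by omega, ?_, ?_⟩
    · rw [div_le_iff₀ hu0] at hk1
      push_cast
      have : (0 : ℝ) ≤ (ν₀ : ℝ) + 1 + k2 := by positivity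
      nlinarith
    · rw [div_le_iff₀ (by positivity)] at hk2
      push_cast
      have : (0 : ℝ) ≤ (ν₀ : ℝ) + 1 + k1 := by positivity
      nlinarith
  obtain ⟨hνa, hν1, hνC, hνE⟩ := hν
  have hνr : (1 : ℝ) ≤ ν := by exact_mod_cast hν1
  have hν0 : (0 : ℝ) < ν := by linarith
  obtain ⟨F, hF, hbase⟩ := hbase ν hνa
  rcases hHB G F (fun P a => Lt t P a) (fun P => P.natDegree) (fun a => (1 - 2 * u) * Real.posLog ‖a‖)
    m u ⟨1, hG1⟩ hu0 (fun P hP => by exact_mod_cast (hF P hP).2) with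
    ⟨x, hx0, hx1, hx2⟩ | ⟨μ₀, σ, hμ0, hσ0, hμ1, hμ2, hμ3⟩
  · -- certificate
    right
    have h2 := hC t τ G F x m (m - ε₀ / 2) ht0 hτ0 hGn hF hx0 hx1 hx2 (by linarith) (by linarith)
    refine cert_mono h2 (Real.exp_pos _).le (Real.exp_le_exp.mpr ?_)
    rw [le_div_iff₀ (by linarith)]
    have e1 : (m - ε₀) * (1 + 2 * u) = m - ε₀ + 2 * (u * m) - 2 * (u * ε₀) := by ring
    have e2 : u * (64 * (m + 2)) = 64 * (u * m) + 128 * u := by ring
    have e3 : 0 ≤ u * ε₀ := by positivity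
    rw [e1]
    linarith
  · left
    -- symmetrise
    set μ : ℂ → ℝ := fun a => (μ₀ a + μ₀ (conj a)) / 2 with hμ
    have hsym : ∀ g : ℂ → ℝ, (∀ a, g (conj a) = g a) → ∑ a ∈ G, μ a * g a = ∑ a ∈ G, μ₀ a * g a := by
      intro g hg
      have h2 : ∑ a ∈ G, μ₀ (conj a) * g a = ∑ a ∈ G, μ₀ a * g a := by
        rw [← sum_conj G hGc (fun a => μ₀ a * g a)]
        apply Finset.sum_congr rfl
        intro a _
        rw [hg]
      have h3 : ∑ a ∈ G, μ a * g a = (∑ a ∈ G, μ₀ a * g a + ∑ a ∈ G, μ₀ (conj a) * g a) / 2 := by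
        rw [← Finset.sum_add_distrib, Finset.sum_div]
        apply Finset.sum_congr rfl
        intro a _
        rw [hμ]; ring
      rw [h3, h2]; ring
    have hμn : ∀ a, 0 ≤ μ a := fun a => by
      have h2 := hμ0 a
      have h3 := hμ0 (conj a)
      rw [hμ]; dsimp only; linarith
    have hμc : ∀ a ∈ G, μ (conj a) = μ a := fun a _ => by
      rw [hμ]; dsimp only; rw [Complex.conj_conj, add_comm]
    have hμs : ∑ a ∈ G, μ a = 1 := by
      have h2 := hsym (fun _ => 1) (fun _ => rfl)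
      simp only [mul_one] at h2
      rw [h2, hμ1]
    obtain ⟨n, hnc, hnν, hnd, hnL⟩ := hrnd μ ν hμn hμc hμs
    set κ : ℝ := σ + 2 * u with hκ
    have hκ0 : 0 ≤ κ := by positivity
    have hconstr : ∀ P ∈ F, -(κ * ν * P.natDegree) ≤ ∑ a ∈ G, n a * Lt t P a := by
      intro P hP
      refine le_trans ?_ (hnL P (hF P hP))
      have h2 := hμ2 P hP
      have h3 := hsym (fun a => Lt t P a) (fun a => Lt_conj hB t P (hF P hP) a)
      have hd : (1 : ℝ) ≤ P.natDegree := by exact_mod_cast (hF P hP).2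
      rw [h3]
      have h4 : -u - σ * P.natDegree ≤ ∑ a ∈ G, μ₀ a * Lt t P a := by linarith
      have h5 : (ν : ℝ) * (-u - σ * P.natDegree) ≤ ν * ∑ a ∈ G, μ₀ a * Lt t P a :=
        mul_le_mul_of_nonneg_left h4 hν0.le
      have h6 : C₁ * P.natDegree ≤ u * ν * P.natDegree :=
        mul_le_mul_of_nonneg_right hνC (by linarith)
      have h7 : u * ν ≤ u * ν * P.natDegree := le_mul_of_one_le_right (by positivity) hd
      have h8 : -(κ * ν * P.natDegree) = -(σ * ν * P.natDegree) - 2 * (u * ν * P.natDegree) := by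
        rw [hκ]; ring
      have h9 : (ν : ℝ) * (-u - σ * P.natDegree) = -(u * ν) - σ * ν * P.natDegree := by ring
      rw [h9] at h5
      rw [h8]
      linarith
    obtain ⟨Ls, hLsF, hsd, hbd⟩ := hbase n κ hnc hnν hκ0 hconstr
    have hA := case2 hEXP hCOST θ' (h0.trans hθ) h1 G t r₁ R₁ s b R u κ ν n Ls hs0 (by linarith)
      hr0 hr1 hR1 ht (fun a ha => (hGb a ha).2) hGc
      (by
        intro a ha z hz
        have h2 := (hGb a ha).2.1
        have hane : a ≠ 0 := by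
          rintro rfl
          rw [norm_zero] at h2
          linarith
        apply hgeo a z hane (hGb a ha).1
        refine hz.trans ?_
        rw [ht]
        exact mul_le_mul hss h2 hr0.le hs10.le)
      hR10 hbR hcost hu0 hκ0 hν1 hnc hnν (fun P hP => hF P (hLsF P hP)) hsd hbd
      (fun P hP => hconstr P (hLsF P hP))
    refine ach_mono hA ?_
    -- the estimate
    have h2 := hsym (fun a => Real.posLog ‖a‖) (fun a => by rw [RCLike.norm_conj])
    have h3 : ∑ a ∈ G, (n a : ℝ) * Real.posLog ‖a‖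
        ≤ ν * ∑ a ∈ G, μ₀ a * Real.posLog ‖a‖ + G.card * (G.card * Real.log R₁) := by
      rw [← h2, Finset.mul_sum, ← nsmul_eq_mul G.card, ← Finset.sum_const, ← Finset.sum_add_distrib]
      apply Finset.sum_le_sum
      intro a ha
      have h4 := (abs_le.mp (hnd a ha)).2
      have h5 : Real.posLog ‖a‖ ≤ Real.log R₁ := by
        rw [Real.posLog_def]
        apply max_le hlR1.le
        have h6 := (hGb a ha).2
        exact Real.log_le_log (by linarith) h6.2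
      have h6 : 0 ≤ Real.posLog ‖a‖ := Real.posLog_nonneg
      have h7 : (0 : ℝ) ≤ G.card := Nat.cast_nonneg _
      have h8 : ((n a : ℝ) - ν * μ a) * Real.posLog ‖a‖ ≤ G.card * Real.log R₁ := by
        calc ((n a : ℝ) - ν * μ a) * Real.posLog ‖a‖ ≤ G.card * Real.posLog ‖a‖ :=
              mul_le_mul_of_nonneg_right h4 h6
          _ ≤ _ := mul_le_mul_of_nonneg_left h5 h7
      linarith
    set S : ℝ := ∑ a ∈ G, μ₀ a * Real.posLog ‖a‖ with hS
    have hS0 : 0 ≤ S := Finset.sum_nonneg fun a _ => mul_nonneg (hμ0 a) Real.posLog_nonneg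
    have h4 : (1 - 2 * u) * S + σ ≤ m + u := by
      have h5 : ∑ a ∈ G, μ₀ a * ((1 - 2 * u) * Real.posLog ‖a‖) = (1 - 2 * u) * S := by
        rw [hS, Finset.mul_sum]
        apply Finset.sum_congr rfl
        intro a _
        ring
      rw [h5] at hμ3
      exact hμ3
    have h5 : (∑ a ∈ G, (n a : ℝ) * Real.posLog ‖a‖) / ν ≤ S + G.card * (G.card * Real.log R₁) / ν := by
      rw [div_le_iff₀ hν0, add_mul, div_mul_cancel₀ _ hν0.ne']
      linarith
    have h6 : (G.card * (G.card * Real.log R₁)) / ν + (1 + u) * (1 + Real.log R) / (2 * ν)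
        = E / ν := by
      rw [hE]
      field_simp
    have h7 : E / ν ≤ ε₀ / 2 := by
      rw [div_le_iff₀ hν0]; exact hνE
    -- main bound: S + σ ≤ m + 4 u (m+1)
    have h8 : S + σ ≤ m + 4 * u * (m + 1) := by
      have h9 : 63 / 64 * S ≤ (1 - 2 * u) * S := mul_le_mul_of_nonneg_right (by linarith) hS0
      have h10 : S ≤ 3 / 2 * (m + 1) := by linarith
      have h11 : u * S ≤ u * (3 / 2 * (m + 1)) := mul_le_mul_of_nonneg_left h10 hu0.le
      linarith
    have h9 : σ ≤ m + 1 := by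
      have h10 : 0 ≤ (1 - 2 * u) * S := mul_nonneg (by linarith) hS0
      linarith
    have h10 : (1 + u) * (κ + u) ≤ σ + 3 * u + u * (m + 1) + 3 * u * u := by
      have h12 : u * σ ≤ u * (m + 1) := mul_le_mul_of_nonneg_left h9 hu0.le
      rw [hκ]
      linarith
    have h11 : 3 * u * u ≤ u := by
      have h12 : u * u ≤ 1 / 128 * u := mul_le_mul_of_nonneg_right hu128 hu0.le
      linarith
    have e2 : u * (64 * (m + 2)) = 64 * (u * m) + 128 * u := by ring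
    linarith

end Pool.Agent.Work.MP_ce2d68_du.h33
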